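import Mathlib
import Pool.Agent.Q99.KP.Fin

set_option autoImplicit false

/-!
# A Banach space answering the kernel problem negatively whose dual answers it positively

Over `𝕜 = ℝ` or `ℂ`, let `X` be the Johnson-Lindenstrauss space of an uncountable almost disjoint
family `(A γ)` of infinite subsets of `ℕ`: the closed span in `ℓ_∞ × ℓ₂(Γ)` of the vectors `(eₙ, 0)`
and `(1_{A γ}, e_γ)`.

* The subspace `c₀` of `X` is not a kernel: the functional `w ↦ w.1 m` composed with an operator
  vanishing on `c₀` is nonzero at countably many generators only (it is square summable), and the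
  first coordinate determines a member of `X`.
* The dual `X*` is the direct sum of `ℓ₁` and `ℓ₂(Γ)`. If `Z` is a closed subspace of `X*`, then
  `X* / closure (Z + ℓ₁)` is a quotient of `ℓ₂(Γ)`, hence embeds into `ℓ₂(Γ)`; adding a one-to-one
  operator of `closure (Z + ℓ₁) / Z` into `ℓ₁`, one gets an operator `X* → X*` with kernel `Z`.
-/

namespace Pool.Agent.Results.MP_ad4c49_an.JohnsonLindenstrauss

open Q99.KP

universe u

/-- There is a Banach space which answers the kernel problem negatively, while its dual answers
it positively. -/
theorem result (𝕜 : Type u) [RCLike 𝕜] :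
    ∃ (X : Type u) (_ : NormedAddCommGroup X) (_ : NormedSpace 𝕜 X), CompleteSpace X ∧
      ¬ AnswersPositively 𝕜 X ∧ AnswersPositively 𝕜 (StrongDual 𝕜 X) := by
  obtain ⟨A, hA⟩ := exists_ad
  have := uncountable_seq
  exact ⟨JL 𝕜 A, inferInstance, inferInstance, completeJL, not_answers hA, (jlike hA).dual_answers⟩

end Pool.Agent.Results.MP_ad4c49_an.JohnsonLindenstrauss
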